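import Pool.Agent.H60.CM.Basic

/-!
# Row FZR: the first integral vanishes
-/

set_option autoImplicit false

open Set Function MeasureTheory Filter Topology
open scoped Manifold ContDiff Matrix

namespace Pool.Agent.H26.CM

open Pool.Agent.H60.CM

theorem crd (a b : V3) : (a ⨯₃ b) 0 = a 1 * b 2 - a 2 * b 1 ∧
    (a ⨯₃ b) 1 = a 2 * b 0 - a 0 * b 2 ∧ (a ⨯₃ b) 2 = a 0 * b 1 - a 1 * b 0 := by
  refine ⟨?_, ?_, ?_⟩ <;> simp [cross_apply]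

theorem dt (a b : V3) : a ⬝ᵥ b = a 0 * b 0 + a 1 * b 1 + a 2 * b 2 := Matrix.vec3_dotProduct a b

theorem par (n a b : V3) (h1 : n ⬝ᵥ n = 1) (h2 : n ⬝ᵥ a = 0) (h3 : n ⬝ᵥ b = 0) :
    a ⨯₃ b = ((a ⨯₃ b) ⬝ᵥ n) • n := by
  rw [dt] at h1 h2 h3
  obtain ⟨c0, c1, c2⟩ := crd a b
  have hd : (a ⨯₃ b) ⬝ᵥ n = (a 1 * b 2 - a 2 * b 1) * n 0 + (a 2 * b 0 - a 0 * b 2) * n 1 +
      (a 0 * b 1 - a 1 * b 0) * n 2 := by rw [dt, c0, c1, c2]
  rw [hd]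
  funext k
  fin_cases k
  · show (a ⨯₃ b) 0 = _ * n 0
    rw [c0]
    linear_combination (-(a 1 * b 2 - a 2 * b 1)) * h1 + (b 2 * n 1 - b 1 * n 2) * h2 +
      (a 1 * n 2 - a 2 * n 1) * h3
  · show (a ⨯₃ b) 1 = _ * n 1
    rw [c1]
    linear_combination (-(a 2 * b 0 - a 0 * b 2)) * h1 + (b 0 * n 2 - b 2 * n 0) * h2 +
      (a 2 * n 0 - a 0 * n 2) * h3
  · show (a ⨯₃ b) 2 = _ * n 2
    rw [c2]
    linear_combination (-(a 0 * b 1 - a 1 * b 0)) * h1 + (b 1 * n 0 - b 0 * n 1) * h2 +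
      (a 0 * n 1 - a 1 * n 0) * h3

theorem nz (Z n a b : V3) (h0 : a ⨯₃ b ≠ 0) (h1 : n ⬝ᵥ n = 1) (h2 : n ⬝ᵥ a = 0)
    (h3 : n ⬝ᵥ b = 0) (h4 : Z ⬝ᵥ n = 0) (h5 : Z ⬝ᵥ Z = 1) (h6 : Z ⬝ᵥ a = 0)
    (h7 : Z ⬝ᵥ b = 0) : False := by
  have e1 := par n a b h1 h2 h3
  have e2 := par Z a b h5 h6 h7
  apply h0
  have e3 : (a ⨯₃ b) ⬝ᵥ n = 0 := by
    rw [e2, smul_dotProduct, h4, smul_zero]
  rw [e1, e3, zero_smul]

theorem val (Z V n a b : V3) (h0 : a ⨯₃ b ≠ 0) (h1 : n ⬝ᵥ n = 1) (h2 : n ⬝ᵥ a = 0)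
    (h3 : n ⬝ᵥ b = 0) :
    ((Z ⬝ᵥ a) * (V ⬝ᵥ b) - (Z ⬝ᵥ b) * (V ⬝ᵥ a)) / ((a ⨯₃ b) ⬝ᵥ n) = (Z ⨯₃ V) ⬝ᵥ n := by
  have e1 := par n a b h1 h2 h3
  have e2 : (a ⨯₃ b) ⬝ᵥ n ≠ 0 := by
    intro h
    rw [h, zero_smul] at e1
    exact h0 e1
  rw [div_eq_iff e2]
  have e3 : (Z ⨯₃ V) ⬝ᵥ (a ⨯₃ b) = (Z ⬝ᵥ a) * (V ⬝ᵥ b) - (Z ⬝ᵥ b) * (V ⬝ᵥ a) := by
    obtain ⟨c0, c1, c2⟩ := crd a b
    obtain ⟨g0, g1, g2⟩ := crd Z V
    rw [dt, dt, dt, dt, dt, c0, c1, c2, g0, g1, g2]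
    ring
  rw [← e3, e1, dotProduct_smul, smul_eq_mul, smul_dotProduct, smul_eq_mul, h1]
  ring

theorem pf_FZR (h1 : T_FLX) (h2 : T_BNZ) (h3 : T_BPC) : T_FZR := by
  intro D c _ hfi
  by_contra hc
  have hr := D.cmc.r_pos
  have hr0 : D.r ≠ 0 := hr.ne'
  -- the surface does not meet the axis
  have hax : ∀ p, D.x p 0 ^ 2 + D.x p 1 ^ 2 ≠ 0 := by
    intro p hp
    have e0 : D.x p 0 = 0 := by nlinarith [sq_nonneg (D.x p 0), sq_nonneg (D.x p 1)]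
    have e1 : D.x p 1 = 0 := by nlinarith [sq_nonneg (D.x p 0), sq_nonneg (D.x p 1)]
    have e2 := hfi p
    unfold Dat.fi at e2
    rw [e0, e1] at e2
    apply hc
    rw [← e2]
    ring
  -- the boundary
  have hx2 : ∀ p ∈ D.bd, D.x p 2 = 0 ∧ D.x p 0 ^ 2 + D.x p 1 ^ 2 = D.r ^ 2 := by
    intro p hp
    have e1 := D.cmc.circle.mapsTo hp
    have e2 : D.x p 2 = 0 := e1.1
    have e3 : D.x p ⬝ᵥ D.x p = D.r ^ 2 := e1.2
    rw [dt, e2] at e3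
    refine ⟨e2, ?_⟩
    rw [← e3]
    ring
  obtain ⟨m, hm⟩ : ∃ m : ℝ, m = c - D.H * D.r ^ 2 := ⟨_, rfl⟩
  have hNx : ∀ p ∈ D.bd, D.N p ⬝ᵥ D.x p = m := by
    intro p hp
    obtain ⟨e1, e2⟩ := hx2 p hp
    have e3 := hfi p
    unfold Dat.fi at e3
    rw [e2] at e3
    rw [dt, e1, hm, ← e3]
    ring
  have hN2 : ∀ p ∈ D.bd, D.N p 2 ^ 2 = 1 - m ^ 2 / D.r ^ 2 := by
    intro p hp
    have e1 := (h2 D p hp).2.2.2
    rw [hNx p hp] at e1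
    linarith
  obtain ⟨v, hv⟩ : ∃ v : ℝ, ∀ p ∈ D.bd, D.N p 2 = v := by
    obtain ⟨w, hw⟩ : ∃ w : ℝ, w = Real.sqrt (1 - m ^ 2 / D.r ^ 2) := ⟨_, rfl⟩
    have hcont : Continuous fun p => D.N p 2 := (continuous_apply 2).comp D.smN.continuous
    obtain ⟨p₀, hp₀⟩ := (h3 D).1
    have hw2 : w ^ 2 = 1 - m ^ 2 / D.r ^ 2 := by
      rw [hw]
      apply Real.sq_sqrt
      rw [← hN2 p₀ hp₀]
      positivity
    by_cases hw0 : w = 0
    · refine ⟨0, fun p hp => ?_⟩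
      have e1 := hN2 p hp
      rw [← hw2, hw0] at e1
      simpa using e1
    · rcases (h3 D).2.2.1.eq_or_eq_neg_of_sq_eq (f := fun p => D.N p 2) (g := fun _ => w)
        hcont.continuousOn continuousOn_const
        (fun p hp => by
          show D.N p 2 ^ 2 = w ^ 2
          rw [hN2 p hp, hw2])
        (fun _ => hw0) with h | h
      · exact ⟨w, fun p hp => h hp⟩
      · exact ⟨-w, fun p hp => h hp⟩
  have hvm : ∀ p ∈ D.bd, v ^ 2 + m ^ 2 / D.r ^ 2 = 1 := by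
    intro p hp
    have e1 := hN2 p hp
    rw [hv p hp] at e1
    linarith
  -- the function
  obtain ⟨al, hal⟩ : ∃ al : ℝ, al = -v / (2 * D.r) := ⟨_, rfl⟩
  obtain ⟨be, hbe⟩ : ∃ be : ℝ, be = m / D.r := ⟨_, rfl⟩
  have hX : ∀ k, D.Sm fun q => D.x q k := fun k => Dat.Sm.coord D D.smx k
  have hdS : D.Sm fun q => al * ((D.x q 0 * D.x q 0 + D.x q 1 * D.x q 1) - D.r ^ 2) +
      be * D.x q 2 :=
    Dat.Sm.add D (Dat.Sm.const_mul D (Dat.Sm.sub D (Dat.Sm.add D (Dat.Sm.mul D (hX 0) (hX 0))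
      (Dat.Sm.mul D (hX 1) (hX 1))) (Dat.Sm.const D _)) al) (Dat.Sm.const_mul D (hX 2) be)
  obtain ⟨d, hd⟩ : ∃ d : D.S → ℝ, d = fun q => al * ((D.x q 0 * D.x q 0 + D.x q 1 * D.x q 1) -
    D.r ^ 2) + be * D.x q 2 := ⟨_, rfl⟩
  rw [← hd] at hdS
  have hdd : ∀ p i, dd d p i = ![2 * al * D.x p 0, 2 * al * D.x p 1, be] ⬝ᵥ dd D.x p i := by
    intro p i
    have mx := Dat.Sm.md D D.smx p
    have m0 := mx.coord 0
    have m1 := mx.coord 1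
    have m2 := mx.coord 2
    rw [hd, dd_add ((md_const al p).mul (((m0.mul m0).add (m1.mul m1)).sub (md_const _ p)))
      ((md_const be p).mul m2), dd_const_mul (((m0.mul m0).add (m1.mul m1)).sub (md_const _ p)),
      dd_const_mul m2, dd_sub ((m0.mul m0).add (m1.mul m1)) (md_const _ p),
      dd_add (m0.mul m0) (m1.mul m1), dd_mul m0 m0, dd_mul m1 m1, dd_const, dd_coord mx,
      dd_coord mx, dd_coord mx, dt]
    simp only [Matrix.cons_val_zero, Matrix.cons_val_one, Matrix.cons_val]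
    ring
  have hk : ∀ p i k, dd (fun q => D.x q k) p i = dd D.x p i k := fun p i k =>
    dd_coord (Dat.Sm.md D D.smx p) k i
  -- pointwise facts on the boundary
  have hZN : ∀ p ∈ D.bd, ![2 * al * D.x p 0, 2 * al * D.x p 1, be] ⬝ᵥ D.N p = 0 := by
    intro p hp
    have e1 := hNx p hp
    rw [dt, (hx2 p hp).1] at e1
    rw [dt]
    simp only [Matrix.cons_val_zero, Matrix.cons_val_one, Matrix.cons_val]
    have e2 : D.N p 0 * D.x p 0 + D.N p 1 * D.x p 1 = m := by linarith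
    have e3 : 2 * al * D.x p 0 * D.N p 0 + 2 * al * D.x p 1 * D.N p 1 + be * D.N p 2 =
        2 * al * m + be * v := by
      rw [hv p hp, ← e2]
      ring
    rw [e3, hal, hbe]
    field_simp
    ring
  have hZZ : ∀ p ∈ D.bd, ![2 * al * D.x p 0, 2 * al * D.x p 1, be] ⬝ᵥ
      ![2 * al * D.x p 0, 2 * al * D.x p 1, be] = 1 := by
    intro p hp
    rw [dt]
    simp only [Matrix.cons_val_zero, Matrix.cons_val_one, Matrix.cons_val]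
    have e3 : 2 * al * D.x p 0 * (2 * al * D.x p 0) + 2 * al * D.x p 1 * (2 * al * D.x p 1) +
        be * be = 4 * al ^ 2 * D.r ^ 2 + be ^ 2 := by
      rw [← (hx2 p hp).2]
      ring
    rw [e3, ← hvm p hp, hal, hbe]
    field_simp
    ring
  refine h1 D d (-1) hax hdS ?_ ?_ ?_
  · intro p hp
    obtain ⟨e1, e2⟩ := hx2 p hp
    rw [hd]
    show al * ((D.x p 0 * D.x p 0 + D.x p 1 * D.x p 1) - D.r ^ 2) + be * D.x p 2 = 0
    rw [e1, ← e2]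
    ring
  · intro p hp
    by_contra hcon
    push Not at hcon
    rw [hdd, hdd] at hcon
    exact nz _ _ _ _ (D.cmc.imm p) (D.cmc.unit p) (D.cmc.normal p 0) (D.cmc.normal p 1)
      (hZN p hp) (hZZ p hp) hcon.1 hcon.2
  · intro p hp
    have e1 := val ![2 * al * D.x p 0, 2 * al * D.x p 1, be] ![-D.x p 1, D.x p 0, 0] (D.N p) _ _
      (D.cmc.imm p) (D.cmc.unit p) (D.cmc.normal p 0) (D.cmc.normal p 1)
    have e2 : -(D.x p 1) * br D.x D.N d (fun q => D.x q 0) p +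
        D.x p 0 * br D.x D.N d (fun q => D.x q 1) p =
        (![2 * al * D.x p 0, 2 * al * D.x p 1, be] ⨯₃ ![-D.x p 1, D.x p 0, 0]) ⬝ᵥ D.N p := by
      rw [← e1]
      unfold br brk
      rw [hdd, hdd, hk, hk, hk, hk, dt ![-D.x p 1, D.x p 0, 0], dt ![-D.x p 1, D.x p 0, 0]]
      simp only [Matrix.cons_val_zero, Matrix.cons_val_one, Matrix.cons_val]
      ring
    rw [e2]
    obtain ⟨g0, g1, g2⟩ := crd ![2 * al * D.x p 0, 2 * al * D.x p 1, be] ![-D.x p 1, D.x p 0, 0]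
    rw [dt, g0, g1, g2]
    simp only [Matrix.cons_val_zero, Matrix.cons_val_one, Matrix.cons_val]
    have e3 := hNx p hp
    rw [dt, (hx2 p hp).1] at e3
    have e4 : D.N p 0 * D.x p 0 + D.N p 1 * D.x p 1 = m := by linarith
    have e5 := (hx2 p hp).2
    have e6 : -1 * ((2 * al * D.x p 1 * 0 - be * D.x p 0) * D.N p 0 +
        (be * -D.x p 1 - 2 * al * D.x p 0 * 0) * D.N p 1 +
        (2 * al * D.x p 0 * D.x p 0 - 2 * al * D.x p 1 * -D.x p 1) * D.N p 2) =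
        be * m - 2 * al * D.r ^ 2 * v := by
      rw [hv p hp, ← e4, ← e5]
      ring
    rw [e6]
    have e7 : be * m - 2 * al * D.r ^ 2 * v = D.r * (v ^ 2 + m ^ 2 / D.r ^ 2) := by
      rw [hal, hbe]
      field_simp
      ring
    rw [e7, hvm p hp, mul_one]
    exact hr

end Pool.Agent.H26.CM
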